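import Mathlib
import Pool.Agent.H482.DS.Stm
import Pool.Agent.H482.AP.Joi

/-! The large sieve for all classes modulo primes and a set sifted by `κ p` classes modulo `p`. -/

set_option autoImplicit false

namespace Pool.Agent.H482.DU

open Finset

open Pool.Agent.Helper112 (ee)
open Pool.Agent.H482.DS (S_MONK)
open Pool.Agent.H482.AP (AS red two S_TWO class_count ind1 prod_factors dens)
open Pool.Agent.H482.AP.Ind (split red_one)
open Pool.Agent.H482.AP.LSAx (AS_nonneg ALS)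

/-- the weight of the sieve with `κ p` classes -/
noncomputable def gf (κ : ℕ → ℕ) (m : ℕ) : ℝ := ∏ p ∈ m.primeFactors, (κ p : ℝ) / ((p : ℝ) - κ p)

theorem gf_mul (κ : ℕ → ℕ) (p m : ℕ) (hp : p.Prime) (hc : p.Coprime m) (hm : m ≠ 0) :
    gf κ (p * m) = (κ p : ℝ) / ((p : ℝ) - κ p) * gf κ m := by
  unfold gf
  rw [Nat.primeFactors_mul hp.ne_zero hm, hp.primeFactors, prod_union, prod_singleton]
  rw [disjoint_singleton_left]
  intro h
  have := Nat.dvd_of_mem_primeFactors h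
  exact hp.one_lt.ne' (Nat.eq_one_of_dvd_coprimes hc dvd_rfl this)

theorem gf_nonneg (κ : ℕ → ℕ) (m : ℕ) (h : ∀ p ∈ m.primeFactors, κ p < p) : 0 ≤ gf κ m := by
  unfold gf
  apply prod_nonneg
  intro p hp
  have h1 : (κ p : ℝ) < p := by exact_mod_cast h p hp
  exact div_nonneg (Nat.cast_nonneg _) (by linarith)

theorem indf (hM : S_MONK) (κ : ℕ → ℕ) (N : ℕ) (Ω : ℕ → Finset ℕ) : ∀ (m : ℕ) (b : ℕ → ℂ), Squarefree m →
    (∀ p ∈ m.primeFactors, κ p < p ∧ Ω p ⊆ range p ∧ (Ω p).card = κ p ∧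
      ∀ n ∈ Icc 1 N, n % p ∈ Ω p → b n = 0) →
    gf κ m * ‖∑ n ∈ Icc 1 N, b n‖ ^ 2 ≤ AS N b m := by
  intro m
  induction m using Nat.strong_induction_on with
  | _ m ih =>
    intro b hm hb
    have hm0 : m ≠ 0 := hm.ne_zero
    by_cases hm1 : m = 1
    · subst hm1
      unfold gf AS
      rw [Nat.primeFactors_one, prod_empty, one_mul, red_one, sum_singleton]
      apply le_of_eq
      congr 2
      refine sum_congr rfl (fun n _ => ?_)
      simp [Pool.Agent.Helper112.ls_ee_zero]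
    · have hp : (m.minFac).Prime := Nat.minFac_prime hm1
      obtain ⟨p, hpd⟩ : ∃ p, p = m.minFac := ⟨_, rfl⟩
      obtain ⟨m', hm'⟩ : ∃ m', m = p * m' := by
        rw [hpd]
        exact Nat.minFac_dvd m
      rw [← hpd] at hp
      clear hpd
      subst hm'
      have hm'0 : m' ≠ 0 := right_ne_zero_of_mul hm0
      have hsq := (Nat.squarefree_mul_iff).1 hm
      obtain ⟨hkp, hΩ1, hΩ2, hΩ3⟩ := hb p (Nat.mem_primeFactors.2 ⟨hp, dvd_mul_right p m', hm0⟩)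
      have hkp' : (κ p : ℝ) < p := by exact_mod_cast hkp
      have hc0 : (0 : ℝ) ≤ (κ p : ℝ) / ((p : ℝ) - κ p) := div_nonneg (Nat.cast_nonneg _) (by linarith)
      rw [split two N p m' b hp.one_le (Nat.pos_of_ne_zero hm'0) hsq.1]
      have e2 : ∀ d ∈ red m', (κ p : ℝ) / ((p : ℝ) - κ p) * ‖∑ n ∈ Icc 1 N, b n *
          ee ((n : ℝ) * d / (m' : ℝ))‖ ^ 2 ≤
          AS N (fun n => b n * ee ((n : ℝ) * ((d : ℝ) / (m' : ℝ)))) p := by
        intro d _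
        have h3 := hM (κ p) p N (Ω p) (fun n => b n * ee ((n : ℝ) * ((d : ℝ) / (m' : ℝ)))) hp hkp hΩ1 hΩ2
          (fun n hn h => by
            rw [hΩ3 n hn h, zero_mul])
        refine le_trans (le_of_eq ?_) h3
        congr 3
        refine sum_congr rfl (fun n _ => ?_)
        rw [mul_div_assoc]
      refine le_trans ?_ (sum_le_sum e2)
      rw [← mul_sum, gf_mul κ p m' hp hsq.1 hm'0, mul_assoc]
      apply mul_le_mul_of_nonneg_left _ hc0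
      refine ih m' ?_ b hsq.2.2 (fun q hq => hb q (by
        rw [Nat.primeFactors_mul hp.ne_zero hm'0]
        exact mem_union_right _ hq))
      calc m' = 1 * m' := (one_mul _).symm
        _ < p * m' := Nat.mul_lt_mul_of_pos_right hp.one_lt (Nat.pos_of_ne_zero hm'0)

/-- the large sieve for all classes modulo primes -/
theorem lsqf (hM : S_MONK) (κ : ℕ → ℕ) (P₀ N Q R : ℕ) (hkP : ∀ p, κ p ≤ P₀) (S : Finset ℕ) (a : ℕ → ℂ)
    (Ω : ℕ → Finset ℕ) (hS : ∀ q ∈ S, q.Prime ∧ q ≤ Q)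
    (ha : ∀ p : ℕ, p.Prime → P₀ < p → p ≤ R → Ω p ⊆ range p ∧ (Ω p).card = κ p ∧
      ∀ n ∈ Icc 1 N, n % p ∈ Ω p → a n = 0) :
    (∑ m ∈ (Icc 1 R).filter (fun m => Squarefree m ∧
      Nat.Coprime (P₀.factorial * ∏ D ∈ S, D) m), gf κ m) *
      ∑ q ∈ S, AS N a q ≤ 6 * (N + ((Q * R : ℕ) : ℝ) ^ 2) * ∑ n ∈ Icc 1 N, ‖a n‖ ^ 2 := by
  classical
  set W := ∏ D ∈ S, D with hW
  set Ms := (Icc 1 R).filter (fun m => Squarefree m ∧ Nat.Coprime (P₀.factorial * W) m) with hMs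
  have hdvd : ∀ D ∈ S, D ∣ W := fun D hD => Finset.dvd_prod_of_mem _ hD
  have hm : ∀ m ∈ Ms, (1 ≤ m ∧ m ≤ R) ∧ Squarefree m ∧ (∀ p ∈ m.primeFactors, P₀ < p) ∧
      Nat.Coprime m W := by
    intro m hm
    rw [hMs, Finset.mem_filter, Finset.mem_Icc] at hm
    refine ⟨hm.1, hm.2.1, ?_, ?_⟩
    · intro p hp
      by_contra hcon
      push Not at hcon
      have hpp := Nat.prime_of_mem_primeFactors hp
      have h1 : p ∣ P₀.factorial := hpp.dvd_factorial.2 hcon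
      have h2 := Nat.Coprime.coprime_mul_right hm.2.2
      have h3 := Nat.dvd_gcd h1 (Nat.dvd_of_mem_primeFactors hp)
      rw [Nat.Coprime] at h2
      rw [h2] at h3
      exact hpp.one_lt.ne' (Nat.dvd_one.1 h3)
    · exact (Nat.Coprime.coprime_mul_left hm.2.2).symm
  have h1 : ∀ m ∈ Ms, ∀ q ∈ S, gf κ m * AS N a q ≤ AS N a (m * q) := by
    intro m hmm q hq
    obtain ⟨⟨h2, h3⟩, h4, h5, h6⟩ := hm m hmm
    have hcop : m.Coprime q := h6.coprime_dvd_right (hdvd q hq)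
    rw [split two N m q a h2 (hS q hq).1.one_le hcop]
    unfold AS
    rw [mul_sum]
    apply sum_le_sum
    intro d _
    have h7 := indf hM κ N Ω m (fun n => a n * ee ((n : ℝ) * ((d : ℝ) / q))) h4 (by
      intro p hp
      have hpp := Nat.prime_of_mem_primeFactors hp
      have hpd := Nat.dvd_of_mem_primeFactors hp
      obtain ⟨g1, g2, g3⟩ := ha p hpp (h5 p hp) ((Nat.le_of_dvd h2 hpd).trans h3)
      refine ⟨lt_of_le_of_lt (hkP p) (h5 p hp), g1, g2, fun n hn hn2 => ?_⟩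
      rw [g3 n hn hn2, zero_mul])
    refine le_trans (le_of_eq ?_) h7
    congr 3
    apply sum_congr rfl
    intro n _
    rw [mul_div_assoc]
  have h2 : (∑ m ∈ Ms, gf κ m) * ∑ q ∈ S, AS N a q ≤ ∑ x ∈ Ms ×ˢ S, AS N a (x.1 * x.2) := by
    rw [Finset.sum_mul_sum, Finset.sum_product]
    exact Finset.sum_le_sum fun m hmm => Finset.sum_le_sum fun D hD => h1 m hmm D hD
  have hinj : Set.InjOn (fun x : ℕ × ℕ => x.1 * x.2) (Ms ×ˢ S : Finset (ℕ × ℕ)) := by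
    rintro ⟨m, q⟩ hx ⟨m', q'⟩ hx' heq
    rw [mem_coe, mem_product] at hx hx'
    simp only at heq hx hx'
    have c1 := (hm m hx.1).2.2.2
    have c2 := (hm m' hx'.1).2.2.2
    have c3 := (hm m hx.1).1.1
    have e1 : Nat.gcd (m * q) W = q := by
      rw [Nat.Coprime.gcd_mul_left_cancel q c1]
      exact Nat.gcd_eq_left (hdvd q hx.2)
    have e2 : Nat.gcd (m' * q') W = q' := by
      rw [Nat.Coprime.gcd_mul_left_cancel q' c2]
      exact Nat.gcd_eq_left (hdvd q' hx'.2)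
    have e3 : q = q' := by rw [← e1, heq, e2]
    subst e3
    have e4 : m = m' := Nat.eq_of_mul_eq_mul_right (hS q hx.2).1.pos heq
    rw [e4]
  have h3 : ∑ x ∈ Ms ×ˢ S, AS N a (x.1 * x.2) =
      ∑ f ∈ (Ms ×ˢ S).image (fun x : ℕ × ℕ => x.1 * x.2), AS N a f := by
    rw [sum_image hinj]
  have h4 : (Ms ×ˢ S).image (fun x : ℕ × ℕ => x.1 * x.2) ⊆ Icc 1 (Q * R) := by
    intro f hf
    rw [mem_image] at hf
    obtain ⟨⟨m, q⟩, hx, rfl⟩ := hf
    rw [mem_product] at hx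
    have c1 := (hm m hx.1).1
    have c2 := (hS q hx.2)
    rw [mem_Icc]
    refine ⟨Nat.mul_pos c1.1 c2.1.pos, ?_⟩
    simp only
    rw [Nat.mul_comm Q R]
    exact Nat.mul_le_mul c1.2 c2.2
  calc (∑ m ∈ Ms, gf κ m) * ∑ q ∈ S, AS N a q ≤ ∑ x ∈ Ms ×ˢ S, AS N a (x.1 * x.2) := h2
    _ = ∑ f ∈ (Ms ×ˢ S).image (fun x : ℕ × ℕ => x.1 * x.2), AS N a f := h3
    _ ≤ ∑ f ∈ Icc 1 (Q * R), AS N a f :=
      sum_le_sum_of_subset_of_nonneg h4 fun f _ _ => AS_nonneg N a f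
    _ ≤ _ := by
      have := ALS N (Q * R) a
      exact this


/-- the large sieve for a set sifted by `κ p` classes -/
theorem upf (hM : S_MONK) (κ : ℕ → ℕ) (P₀ N R : ℕ) (hkP : ∀ p, κ p ≤ P₀) (a : ℕ → ℂ)
    (Ω : ℕ → Finset ℕ)
    (ha : ∀ p : ℕ, p.Prime → P₀ < p → p ≤ R → Ω p ⊆ range p ∧ (Ω p).card = κ p ∧
      ∀ n ∈ Icc 1 N, n % p ∈ Ω p → a n = 0) :
    (∑ m ∈ (Icc 1 R).filter (fun m => Squarefree m ∧ Nat.Coprime P₀.factorial m), gf κ m) *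
      ‖∑ n ∈ Icc 1 N, a n‖ ^ 2 ≤ 6 * (N + (R : ℝ) ^ 2) * ∑ n ∈ Icc 1 N, ‖a n‖ ^ 2 := by
  classical
  rw [sum_mul]
  have h1 : ∀ m ∈ (Icc 1 R).filter (fun m => Squarefree m ∧ Nat.Coprime P₀.factorial m),
      gf κ m * ‖∑ n ∈ Icc 1 N, a n‖ ^ 2 ≤ AS N a m := by
    intro m hm
    rw [mem_filter, mem_Icc] at hm
    obtain ⟨⟨h2, h3⟩, h4, h5⟩ := hm
    refine indf hM κ N Ω m a h4 ?_
    intro p hp
    have hpp := Nat.prime_of_mem_primeFactors hp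
    have hpd := Nat.dvd_of_mem_primeFactors hp
    have hPp : P₀ < p := by
      by_contra hcon
      push Not at hcon
      have h6 : p ∣ P₀.factorial := hpp.dvd_factorial.2 hcon
      have h7 := Nat.dvd_gcd h6 hpd
      rw [Nat.Coprime] at h5
      rw [h5] at h7
      exact hpp.one_lt.ne' (Nat.dvd_one.1 h7)
    obtain ⟨g1, g2, g3⟩ := ha p hpp hPp ((Nat.le_of_dvd h2 hpd).trans h3)
    exact ⟨lt_of_le_of_lt (hkP p) hPp, g1, g2, g3⟩
  calc ∑ m ∈ (Icc 1 R).filter (fun m => Squarefree m ∧ Nat.Coprime P₀.factorial m),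
        gf κ m * ‖∑ n ∈ Icc 1 N, a n‖ ^ 2
      ≤ ∑ m ∈ (Icc 1 R).filter (fun m => Squarefree m ∧ Nat.Coprime P₀.factorial m), AS N a m :=
        sum_le_sum h1
    _ ≤ ∑ m ∈ Icc 1 R, AS N a m :=
      sum_le_sum_of_subset_of_nonneg (filter_subset _ _) (fun m _ _ => AS_nonneg N a m)
    _ ≤ _ := by
      have := ALS N R a
      exact this

theorem ind_sq (x : ℕ) (A : Finset ℕ) (hA : A ⊆ Icc 1 x) :
    ∑ n ∈ Icc 1 x, ‖ind1 A n‖ ^ 2 = A.card := by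
  classical
  have : ∀ n ∈ Icc 1 x, ‖ind1 A n‖ ^ 2 = if n ∈ A then (1 : ℝ) else 0 := by
    intro n _
    unfold ind1
    split_ifs <;> simp
  rw [sum_congr rfl this, ← sum_filter, filter_mem_eq_inter, inter_eq_right.2 hA]
  simp

theorem ind_sum (x : ℕ) (A : Finset ℕ) (hA : A ⊆ Icc 1 x) :
    ∑ n ∈ Icc 1 x, ind1 A n = (A.card : ℂ) := by
  classical
  have : ∀ n ∈ Icc 1 x, ind1 A n = if n ∈ A then (1 : ℂ) else 0 := by
    intro n _
    unfold ind1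
    split_ifs <;> simp
  rw [sum_congr rfl this, ← sum_filter, filter_mem_eq_inter, inter_eq_right.2 hA]
  simp

/-- few primes with a large second moment -/
theorem few_f (hM : S_MONK) (κ : ℕ → ℕ) (P₀ x Q R : ℕ) (hkP : ∀ p, κ p ≤ P₀)
    (A : Finset ℕ) (E Λ : ℝ) (Ω : ℕ → Finset ℕ) (hA : A ⊆ Icc 1 x)
    (hΩ : ∀ p : ℕ, p.Prime → P₀ < p → p ≤ R → Ω p ⊆ range p ∧ (Ω p).card = κ p ∧
      ∀ n ∈ A, n % p ∉ Ω p)
    (hQR : (Q * R) ^ 2 ≤ x) (S : Finset ℕ) (hS : ∀ q ∈ S, q.Prime ∧ q ≤ Q)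
    (hbig : ∀ q ∈ S, E ^ 2 ≤ AS x (ind1 A) q)
    (hΛ : Λ ≤ ∑ m ∈ (Icc 1 R).filter (fun m => Squarefree m ∧
      Nat.Coprime (P₀.factorial * ∏ D ∈ S, D) m), gf κ m) (hΛ0 : 0 ≤ Λ) :
    Λ * (S.card * E ^ 2) ≤ 12 * x * A.card := by
  classical
  have h1 := lsqf hM κ P₀ x Q R hkP S (ind1 A) Ω hS (by
    intro p hp hp3 hpR
    obtain ⟨g1, g2, g3⟩ := hΩ p hp hp3 hpR
    refine ⟨g1, g2, fun n _ hn => ?_⟩
    unfold ind1
    rw [if_neg]
    intro hn'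
    exact g3 n hn' hn)
  have h4 : (S.card : ℝ) * E ^ 2 ≤ ∑ q ∈ S, AS x (ind1 A) q := by
    rw [← nsmul_eq_mul, ← sum_const]
    exact sum_le_sum hbig
  rw [ind_sq x A hA] at h1
  have h6 : (((Q * R : ℕ) : ℝ)) ^ 2 ≤ x := by exact_mod_cast hQR
  have h0 : 0 ≤ (S.card : ℝ) * E ^ 2 := by positivity
  calc Λ * (S.card * E ^ 2)
      ≤ (∑ m ∈ (Icc 1 R).filter (fun m => Squarefree m ∧
          Nat.Coprime (P₀.factorial * ∏ D ∈ S, D) m), gf κ m) *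
        ∑ q ∈ S, AS x (ind1 A) q :=
        mul_le_mul hΛ h4 h0 (hΛ0.trans hΛ)
    _ ≤ 6 * (x + ((Q * R : ℕ) : ℝ) ^ 2) * A.card := h1
    _ ≤ 12 * x * A.card := by
        have h7 : 6 * ((x : ℝ) + ((Q * R : ℕ) : ℝ) ^ 2) ≤ 12 * x := by linarith
        exact mul_le_mul_of_nonneg_right h7 (Nat.cast_nonneg _)

end Pool.Agent.H482.DU
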