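import Mathlib
import Pool.Agent.H482.DU.Ls
import Pool.Agent.H482.DS.Gsuk

/-! The lower bound for the sum of the weights for two classes, one modulo the divisors of `d`. -/

set_option autoImplicit false

namespace Pool.Agent.H482.DU

open Finset

open Pool.Agent.H482.DS (gk S_GSUK)

/-- the number of classes modulo `p` -/
def kap (d p : ℕ) : ℕ := if p ∣ d then 1 else 2

/-- the product of the `1 - 1 / p` -/
noncomputable def th (T : Finset ℕ) : ℝ := ∏ p ∈ T, (1 - (p : ℝ)⁻¹)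

lemma fac_pos (p : ℕ) (hp : p.Prime) : 0 < 1 - (p : ℝ)⁻¹ := by
  have h1 : (2 : ℝ) ≤ p := by exact_mod_cast hp.two_le
  have h2 : (p : ℝ)⁻¹ ≤ 2⁻¹ := inv_anti₀ (by norm_num) h1
  linarith [h2, (by norm_num : (2 : ℝ)⁻¹ < 1)]

lemma fac_le (p : ℕ) : 1 - (p : ℝ)⁻¹ ≤ 1 := by
  have : (0 : ℝ) ≤ (p : ℝ)⁻¹ := by positivity
  linarith

lemma tot_th (n : ℕ) (hn : n ≠ 0) : (Nat.totient n : ℝ) / n = th n.primeFactors := by
  have h := Nat.totient_eq_mul_prod_factors n
  have h3 : ((Nat.totient n : ℚ) : ℝ) =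
      (((n : ℕ) * ∏ p ∈ n.primeFactors, (1 - ((p : ℚ))⁻¹) : ℚ) : ℝ) := by rw [h]
  push_cast at h3
  rw [h3]
  unfold th
  have hn0 : (n : ℝ) ≠ 0 := by exact_mod_cast hn
  field_simp

lemma th_pos (T : Finset ℕ) (hT : ∀ p ∈ T, p.Prime) : 0 < th T :=
  prod_pos (fun p hp => fac_pos p (hT p hp))

lemma th_le_one (T : Finset ℕ) (hT : ∀ p ∈ T, p.Prime) : th T ≤ 1 :=
  prod_le_one (fun p hp => (fac_pos p (hT p hp)).le) (fun p _ => fac_le p)

lemma th_union (A B : Finset ℕ) (hA : ∀ p ∈ A, p.Prime) (hB : ∀ p ∈ B, p.Prime) :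
    th A * th B ≤ th (A ∪ B) := by
  unfold th
  rw [← prod_union_inter]
  have h1 : th (A ∩ B) ≤ 1 := th_le_one _ (fun p hp => hA p (mem_inter.1 hp).1)
  have h2 : 0 < th (A ∪ B) := th_pos _ (fun p hp => by
    rcases mem_union.1 hp with h | h
    · exact hA p h
    · exact hB p h)
  calc th (A ∪ B) * th (A ∩ B) ≤ th (A ∪ B) * 1 := mul_le_mul_of_nonneg_left h1 h2.le
    _ = _ := mul_one _

lemma th_anti (A B : Finset ℕ) (hAB : A ⊆ B) (hB : ∀ p ∈ B, p.Prime) : th B ≤ th A := by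
  have h1 : th B = th (B \ A) * th A := by
    unfold th
    rw [prod_sdiff hAB]
  have h2 : th (B \ A) ≤ 1 := th_le_one _ (fun p hp => hB p (mem_sdiff.1 hp).1)
  have h3 : 0 < th A := th_pos _ (fun p hp => hB p (hAB hp))
  rw [h1]
  calc th (B \ A) * th A ≤ 1 * th A := mul_le_mul_of_nonneg_right h2 h3.le
    _ = _ := one_mul _

lemma sqf_prod (T : Finset ℕ) (hT : ∀ p ∈ T, p.Prime) : Squarefree (∏ p ∈ T, p) := by
  classical
  induction T using Finset.induction_on with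
  | empty => simp
  | insert p T hp ih =>
    rw [prod_insert hp, Nat.squarefree_mul_iff]
    have h1 := hT p (mem_insert_self _ _)
    have h2 : ∀ q ∈ T, q.Prime := fun q hq => hT q (mem_insert_of_mem hq)
    refine ⟨?_, h1.squarefree, ih h2⟩
    apply Nat.Coprime.prod_right
    intro q hq
    rw [Nat.coprime_primes h1 (h2 q hq)]
    rintro rfl
    exact hp hq

lemma prod_le_four (T : Finset ℕ) (z : ℕ) (hT : ∀ p ∈ T, p.Prime ∧ p ≤ z) :
    ∏ p ∈ T, p ≤ 4 ^ z := by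
  refine le_trans ?_ (primorial_le_four_pow z)
  unfold primorial
  apply prod_le_prod_of_subset_of_one_le'
  · intro p hp
    rw [mem_filter, mem_range]
    exact ⟨by have := (hT p hp).2; omega, (hT p hp).1⟩
  · intro p hp _
    exact (mem_filter.1 hp).2.one_le

theorem low (hG : S_GSUK) (P₀ W d z R R₂ s : ℕ) (hP : 2 ≤ P₀) (hW0 : W ≠ 0) (hd : d ≠ 0)
    (hW : (1 : ℝ) / 2 ≤ (Nat.totient W : ℝ) / W)
    (hb : (1 : ℝ) / 2 ≤ th (d.primeFactors.filter (fun p => z < p)))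
    (hs : 1 ≤ s) (hs2 : s ^ 2 ≤ R₂) (hR : 4 ^ z * R₂ ≤ R) :
    ((Nat.totient P₀.factorial : ℝ) / (P₀.factorial : ℕ)) ^ 2 / 16 *
      ((Nat.totient d : ℝ) / d) * (Real.log s) ^ 2 ≤
    ∑ m ∈ (Icc 1 R).filter (fun m => Squarefree m ∧ Nat.Coprime (P₀.factorial * W) m),
      gf (kap d) m := by
  classical
  obtain ⟨𝒟, h𝒟⟩ : ∃ 𝒟 : Finset ℕ, 𝒟 = d.primeFactors.filter (fun p => P₀ < p ∧ p ≤ z ∧ ¬ p ∣ W) :=
    ⟨_, rfl⟩
  have hDp : ∀ p ∈ 𝒟, p.Prime := by
    intro p hp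
    rw [h𝒟, mem_filter] at hp
    exact Nat.prime_of_mem_primeFactors hp.1
  have hDd : ∀ p ∈ 𝒟, p ∣ d := by
    intro p hp
    rw [h𝒟, mem_filter] at hp
    exact Nat.dvd_of_mem_primeFactors hp.1
  have hDP : ∀ p ∈ 𝒟, P₀ < p ∧ p ≤ z ∧ ¬ p ∣ W := by
    intro p hp
    rw [h𝒟, mem_filter] at hp
    exact hp.2
  obtain ⟨q, hq⟩ : ∃ q : ℕ, q = P₀.factorial * W * d := ⟨_, rfl⟩
  have hP0 := P₀.factorial_pos
  have hq0 : q ≠ 0 := by
    rw [hq]
    exact mul_ne_zero (mul_ne_zero hP0.ne' hW0) hd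
  obtain ⟨Ms, hMs⟩ : ∃ Ms : Finset ℕ, Ms = (Icc 1 R₂).filter
    (fun m => Squarefree m ∧ Nat.Coprime q m) := ⟨_, rfl⟩
  have hlow := hG 2 q s R₂ (by norm_num) (Nat.pos_of_ne_zero hq0) (by
    intro p hp hp2
    rw [hq, mul_assoc]
    exact dvd_mul_of_dvd_left (hp.dvd_factorial.2 (hp2.trans hP)) _) hs hs2
  have hMs' : ∑ m ∈ (Icc 1 R₂).filter (fun m => Squarefree m ∧ Nat.Coprime q m), gk 2 m =
      ∑ m ∈ Ms, gk 2 m := by
    rw [hMs]
  rw [hMs'] at hlow
  have hm : ∀ m ∈ Ms, 1 ≤ m ∧ m ≤ R₂ ∧ Squarefree m ∧ Nat.Coprime (P₀.factorial * W) m ∧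
      Nat.Coprime d m := by
    intro m hm
    rw [hMs, mem_filter, mem_Icc] at hm
    obtain ⟨⟨h1, h2⟩, h3, h4⟩ := hm
    rw [hq] at h4
    exact ⟨h1, h2, h3, Nat.Coprime.coprime_mul_right h4, Nat.Coprime.coprime_mul_left h4⟩
  -- the weights of the products
  have hprod : ∀ T ∈ 𝒟.powerset, ∀ m ∈ Ms,
      (∏ p ∈ T, 1 / ((p : ℝ) - 1)) * gk 2 m = gf (kap d) ((∏ p ∈ T, p) * m) := by
    intro T hT m hmm
    rw [mem_powerset] at hT
    obtain ⟨h1, h2, h3, h4, h5⟩ := hm m hmm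
    have hTp : ∀ p ∈ T, p.Prime := fun p hp => hDp p (hT hp)
    have hT0 : (∏ p ∈ T, p) ≠ 0 := prod_ne_zero_iff.2 (fun p hp => (hTp p hp).ne_zero)
    unfold gf gk
    rw [Nat.primeFactors_mul hT0 (by omega), Nat.primeFactors_prod hTp, prod_union]
    · congr 1
      · apply prod_congr rfl
        intro p hp
        unfold kap
        rw [if_pos (hDd p (hT hp))]
        norm_num
      · apply prod_congr rfl
        intro p hp
        unfold kap
        rw [if_neg]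
        intro h6
        have h7 := Nat.dvd_gcd h6 (Nat.dvd_of_mem_primeFactors hp)
        rw [Nat.Coprime] at h5
        rw [h5] at h7
        exact (Nat.prime_of_mem_primeFactors hp).one_lt.ne' (Nat.dvd_one.1 h7)
    · rw [disjoint_left]
      intro p hp hp'
      have h7 := Nat.dvd_gcd (hDd p (hT hp)) (Nat.dvd_of_mem_primeFactors hp')
      rw [Nat.Coprime] at h5
      rw [h5] at h7
      exact (hTp p hp).one_lt.ne' (Nat.dvd_one.1 h7)
  have hinj : Set.InjOn (fun x : Finset ℕ × ℕ => (∏ p ∈ x.1, p) * x.2)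
      (𝒟.powerset ×ˢ Ms : Finset (Finset ℕ × ℕ)) := by
    rintro ⟨T, m⟩ hx ⟨T', m'⟩ hx' heq
    rw [mem_coe, mem_product, mem_powerset] at hx hx'
    simp only at heq hx hx'
    have key : ∀ (T : Finset ℕ) (m : ℕ), T ⊆ 𝒟 → m ∈ Ms →
        ((∏ p ∈ T, p) * m).primeFactors ∩ 𝒟 = T := by
      intro T m hT hmm
      obtain ⟨h1, h2, h3, h4, h5⟩ := hm m hmm
      have hTp : ∀ p ∈ T, p.Prime := fun p hp => hDp p (hT hp)
      have hT0 : (∏ p ∈ T, p) ≠ 0 := prod_ne_zero_iff.2 (fun p hp => (hTp p hp).ne_zero)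
      rw [Nat.primeFactors_mul hT0 (by omega), Nat.primeFactors_prod hTp]
      ext p
      rw [mem_inter, mem_union]
      constructor
      · rintro ⟨h6 | h6, h7⟩
        · exact h6
        · exfalso
          have h8 := Nat.dvd_gcd (hDd p h7) (Nat.dvd_of_mem_primeFactors h6)
          rw [Nat.Coprime] at h5
          rw [h5] at h8
          exact (hDp p h7).one_lt.ne' (Nat.dvd_one.1 h8)
      · intro h6
        exact ⟨Or.inl h6, hT h6⟩
    have e1 : T = T' := by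
      rw [← key T m hx.1 hx.2, ← key T' m' hx'.1 hx'.2, heq]
    subst e1
    have hT0 : 0 < ∏ p ∈ T, p := prod_pos (fun p hp => (hDp p (hx.1 hp)).pos)
    rw [Nat.eq_of_mul_eq_mul_left hT0 heq]
  have himg : (𝒟.powerset ×ˢ Ms).image (fun x : Finset ℕ × ℕ => (∏ p ∈ x.1, p) * x.2) ⊆
      (Icc 1 R).filter (fun m => Squarefree m ∧ Nat.Coprime (P₀.factorial * W) m) := by
    intro f hf
    rw [mem_image] at hf
    obtain ⟨⟨T, m⟩, hx, rfl⟩ := hf
    rw [mem_product, mem_powerset] at hx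
    simp only at hx ⊢
    obtain ⟨h1, h2, h3, h4, h5⟩ := hm m hx.2
    have hTp : ∀ p ∈ T, p.Prime := fun p hp => hDp p (hx.1 hp)
    have hT0 : 0 < ∏ p ∈ T, p := prod_pos (fun p hp => (hTp p hp).pos)
    rw [mem_filter, mem_Icc]
    refine ⟨⟨Nat.mul_pos hT0 h1, ?_⟩, ?_, ?_⟩
    · refine le_trans (Nat.mul_le_mul (prod_le_four T z (fun p hp => ⟨hTp p hp, (hDP p (hx.1 hp)).2.1⟩)) h2) hR
    · rw [Nat.squarefree_mul_iff]
      refine ⟨?_, sqf_prod T hTp, h3⟩
      apply Nat.Coprime.prod_left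
      intro p hp
      exact Nat.Coprime.coprime_dvd_left (hDd p (hx.1 hp)) h5
    · apply Nat.Coprime.mul_right _ h4
      apply Nat.Coprime.prod_right
      intro p hp
      obtain ⟨g1, g2, g3⟩ := hDP p (hx.1 hp)
      apply Nat.Coprime.symm
      rw [Nat.Prime.coprime_iff_not_dvd (hTp p hp)]
      intro h6
      rcases (hTp p hp).dvd_mul.1 h6 with h7 | h7
      · have := (hTp p hp).dvd_factorial.1 h7
        omega
      · exact g3 h7
  have hsum : (∏ p ∈ 𝒟, (1 + 1 / ((p : ℝ) - 1))) * ∑ m ∈ Ms, gk 2 m ≤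
      ∑ m ∈ (Icc 1 R).filter (fun m => Squarefree m ∧ Nat.Coprime (P₀.factorial * W) m),
      gf (kap d) m := by
    rw [prod_one_add, sum_mul_sum, ← sum_product']
    calc ∑ x ∈ 𝒟.powerset ×ˢ Ms, (∏ p ∈ x.1, 1 / ((p : ℝ) - 1)) * gk 2 x.2
        = ∑ x ∈ 𝒟.powerset ×ˢ Ms, gf (kap d) ((∏ p ∈ x.1, p) * x.2) := by
          apply sum_congr rfl
          intro x hx
          rw [mem_product] at hx
          exact hprod x.1 hx.1 x.2 hx.2
      _ = ∑ f ∈ (𝒟.powerset ×ˢ Ms).image (fun x : Finset ℕ × ℕ => (∏ p ∈ x.1, p) * x.2),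
          gf (kap d) f := by rw [sum_image hinj]
      _ ≤ _ := by
          apply sum_le_sum_of_subset_of_nonneg himg
          intro m hmm _
          rw [mem_filter] at hmm
          apply gf_nonneg
          intro p hp
          have hpp := Nat.prime_of_mem_primeFactors hp
          have h1 : P₀ < p := by
            by_contra hcon
            push Not at hcon
            have h6 : p ∣ P₀.factorial * W := dvd_mul_of_dvd_left (hpp.dvd_factorial.2 hcon) _
            have h7 := Nat.dvd_gcd h6 (Nat.dvd_of_mem_primeFactors hp)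
            have h8 := hmm.2.2
            rw [Nat.Coprime] at h8
            rw [h8] at h7
            exact hpp.one_lt.ne' (Nat.dvd_one.1 h7)
          unfold kap
          split_ifs <;> omega
  have hDprod : ∏ p ∈ 𝒟, (1 + 1 / ((p : ℝ) - 1)) = (th 𝒟)⁻¹ := by
    unfold th
    rw [← prod_inv_distrib]
    apply prod_congr rfl
    intro p hp
    have h1 : (2 : ℝ) ≤ p := by exact_mod_cast (hDp p hp).two_le
    have h2 : (p : ℝ) - 1 ≠ 0 := by linarith
    have h3 : (p : ℝ) ≠ 0 := by linarith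
    have h4 : 1 - (p : ℝ)⁻¹ = ((p : ℝ) - 1) / p := by field_simp
    rw [h4, inv_div]
    field_simp
    ring
  rw [hDprod] at hsum
  -- the densities
  obtain ⟨ℬ, hℬ⟩ : ∃ ℬ : Finset ℕ, ℬ = d.primeFactors.filter (fun p => z < p) := ⟨_, rfl⟩
  rw [← hℬ] at hb
  have hBp : ∀ p ∈ ℬ, p.Prime := by
    intro p hp
    rw [hℬ, mem_filter] at hp
    exact Nat.prime_of_mem_primeFactors hp.1
  have hPp : ∀ p ∈ P₀.factorial.primeFactors, p.Prime := fun p hp => Nat.prime_of_mem_primeFactors hp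
  have hWp : ∀ p ∈ W.primeFactors, p.Prime := fun p hp => Nat.prime_of_mem_primeFactors hp
  have hqsub : q.primeFactors ⊆ (P₀.factorial.primeFactors ∪ W.primeFactors) ∪ (𝒟 ∪ ℬ) := by
    intro p hp
    have hpp := Nat.prime_of_mem_primeFactors hp
    have hpq := Nat.dvd_of_mem_primeFactors hp
    rw [hq] at hpq
    rw [mem_union, mem_union, mem_union]
    by_cases h1 : p ∣ P₀.factorial
    · exact Or.inl (Or.inl (Nat.mem_primeFactors.2 ⟨hpp, h1, hP0.ne'⟩))
    by_cases h2 : p ∣ W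
    · exact Or.inl (Or.inr (Nat.mem_primeFactors.2 ⟨hpp, h2, hW0⟩))
    right
    have h3 : p ∣ d := by
      rcases hpp.dvd_mul.1 hpq with h | h
      · rcases hpp.dvd_mul.1 h with h | h
        · exact absurd h h1
        · exact absurd h h2
      · exact h
    by_cases h4 : z < p
    · right
      rw [hℬ, mem_filter]
      exact ⟨Nat.mem_primeFactors.2 ⟨hpp, h3, hd⟩, h4⟩
    · left
      rw [h𝒟, mem_filter]
      refine ⟨Nat.mem_primeFactors.2 ⟨hpp, h3, hd⟩, ?_, by omega, h2⟩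
      by_contra h5
      push Not at h5
      exact h1 (hpp.dvd_factorial.2 h5)
  have hUp : ∀ p ∈ (P₀.factorial.primeFactors ∪ W.primeFactors) ∪ (𝒟 ∪ ℬ), p.Prime := by
    intro p hp
    rw [mem_union, mem_union, mem_union] at hp
    rcases hp with (h | h) | (h | h)
    · exact hPp p h
    · exact hWp p h
    · exact hDp p h
    · exact hBp p h
  rw [tot_th W hW0] at hW
  have hth : th P₀.factorial.primeFactors * (1 / 2) * (th 𝒟 * (1 / 2)) ≤ (Nat.totient q : ℝ) / q := by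
    rw [tot_th q hq0]
    refine le_trans ?_ (th_anti _ _ hqsub hUp)
    refine le_trans ?_ (th_union _ _ ?_ ?_)
    · have g1 := th_union P₀.factorial.primeFactors W.primeFactors hPp hWp
      have g2 := th_union 𝒟 ℬ hDp hBp
      have g3 := th_pos P₀.factorial.primeFactors hPp
      have g4 := th_pos 𝒟 hDp
      have g5 : th P₀.factorial.primeFactors * (1 / 2) ≤ th (P₀.factorial.primeFactors ∪ W.primeFactors) :=
        (mul_le_mul_of_nonneg_left hW g3.le).trans g1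
      have g6 : th 𝒟 * (1 / 2) ≤ th (𝒟 ∪ ℬ) := (mul_le_mul_of_nonneg_left hb g4.le).trans g2
      exact mul_le_mul g5 g6 (by positivity) (le_trans (by positivity) g5)
    · intro p hp
      exact hUp p (mem_union_left _ hp)
    · intro p hp
      exact hUp p (mem_union_right _ hp)
  have hthd : (Nat.totient d : ℝ) / d ≤ th 𝒟 := by
    rw [tot_th d hd]
    apply th_anti
    · rw [h𝒟]; exact filter_subset _ _
    · intro p hp
      exact Nat.prime_of_mem_primeFactors hp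
  have hD0 := th_pos 𝒟 hDp
  have hP1 := th_pos P₀.factorial.primeFactors hPp
  have hlogs : 0 ≤ Real.log s := Real.log_natCast_nonneg s
  rw [tot_th P₀.factorial hP0.ne']
  refine le_trans ?_ hsum
  refine le_trans ?_ (mul_le_mul_of_nonneg_left hlow (inv_nonneg.2 hD0.le))
  calc th P₀.factorial.primeFactors ^ 2 / 16 * ((Nat.totient d : ℝ) / d) * (Real.log s) ^ 2
      ≤ th P₀.factorial.primeFactors ^ 2 / 16 * th 𝒟 * (Real.log s) ^ 2 := by gcongr
    _ = (th 𝒟)⁻¹ * (th P₀.factorial.primeFactors * (1 / 2) * (th 𝒟 * (1 / 2)) * Real.log s) ^ 2 := by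
        field_simp
        ring
    _ ≤ (th 𝒟)⁻¹ * ((Nat.totient q : ℝ) / q * Real.log s) ^ 2 := by
        apply mul_le_mul_of_nonneg_left _ (inv_nonneg.2 hD0.le)
        apply pow_le_pow_left₀ (by positivity)
        exact mul_le_mul_of_nonneg_right hth hlogs

end Pool.Agent.H482.DU
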