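import Mathlib
import Pool.Agent.H482.DU.Low
import Pool.Agent.H482.DS.Abs

/-! Sets of prime pairs are equidistributed modulo almost all primes, uniformly in the difference. -/

set_option autoImplicit false

namespace Pool.Agent.H482.DU

open Finset Filter

open Pool.Agent.H482.AP (AS class_count ind1)
open Pool.Agent.H482.DS (S_MONK S_GSUK Ea triv num_E)

/-- the two classes -/
def cl (e : ℤ) (p : ℕ) : Finset ℕ := (range p).filter (fun r => p ∣ r ∨ (p : ℤ) ∣ (r : ℤ) + e)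

lemma cl_card (e : ℤ) (p : ℕ) (hp : p.Prime) : (cl e p).card = kap e.natAbs p := by
  have hp0 : (0 : ℤ) < p := by exact_mod_cast hp.pos
  unfold kap
  by_cases h : p ∣ e.natAbs
  · rw [if_pos h]
    have he : (p : ℤ) ∣ e := by
      rw [← Int.dvd_natAbs]
      exact_mod_cast h
    have h1 : cl e p = {0} := by
      ext r
      unfold cl
      rw [mem_filter, mem_range, mem_singleton]
      constructor
      · rintro ⟨h2, h3 | h3⟩
        · exact Nat.eq_zero_of_dvd_of_lt h3 h2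
        · have h4 : (p : ℤ) ∣ r := (dvd_add_left he).1 h3
          have h5 : p ∣ r := by exact_mod_cast h4
          exact Nat.eq_zero_of_dvd_of_lt h5 h2
      · rintro rfl
        exact ⟨hp.pos, Or.inl (dvd_zero p)⟩
    rw [h1, card_singleton]
  · rw [if_neg h]
    have he : ¬ (p : ℤ) ∣ e := by
      rw [← Int.dvd_natAbs]
      exact_mod_cast h
    obtain ⟨r₀, hr₀⟩ : ∃ r₀ : ℕ, (r₀ : ℤ) = (-e) % p :=
      ⟨((-e) % p).toNat, Int.toNat_of_nonneg (Int.emod_nonneg _ hp0.ne')⟩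
    have h1 : (r₀ : ℤ) < p := by rw [hr₀]; exact Int.emod_lt_of_pos _ hp0
    have h2 : (p : ℤ) ∣ (r₀ : ℤ) + e := by
      rw [hr₀]
      have : (-e) % p + e = -((p : ℤ) * ((-e) / p)) := by
        have := Int.emod_add_mul_ediv (-e) p
        linarith
      rw [this]
      exact (dvd_mul_right _ _).neg_right
    have h3 : r₀ ≠ 0 := by
      rintro rfl
      apply he
      simpa using h2
    have h4 : cl e p = {0, r₀} := by
      ext r
      unfold cl
      rw [mem_filter, mem_range, mem_insert, mem_singleton]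
      constructor
      · rintro ⟨h5, h6 | h6⟩
        · exact Or.inl (Nat.eq_zero_of_dvd_of_lt h6 h5)
        · right
          have h7 : (p : ℤ) ∣ (r : ℤ) - r₀ := by
            have := dvd_sub h6 h2
            simpa using this
          have h8 : (r : ℤ) % p = (r₀ : ℤ) % p :=
            Int.emod_eq_emod_iff_emod_sub_eq_zero.2 (Int.emod_eq_zero_of_dvd h7)
          rw [Int.emod_eq_of_lt (by positivity) (by exact_mod_cast h5),
            Int.emod_eq_of_lt (by positivity) h1] at h8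
          exact_mod_cast h8
      · rintro (rfl | rfl)
        · exact ⟨hp.pos, Or.inl (dvd_zero p)⟩
        · exact ⟨by exact_mod_cast h1, Or.inr h2⟩
    rw [h4, card_pair (Ne.symm h3)]

lemma cl_mem (e : ℤ) (p n : ℕ) (h : n % p ∈ cl e p) : p ∣ n ∨ (p : ℤ) ∣ (n : ℤ) + e := by
  unfold cl at h
  rw [mem_filter] at h
  rcases h.2 with h1 | h1
  · left
    exact (Nat.dvd_mod_iff (dvd_refl p)).1 h1
  · right
    have h2 : ((n % p : ℕ) : ℤ) = n - p * (n / p : ℕ) := by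
      have := Nat.mod_add_div n p
      have h3 : ((n % p : ℕ) : ℤ) + p * (n / p : ℕ) = n := by exact_mod_cast this
      linarith
    rw [h2] at h1
    have h3 : (n : ℤ) + e = ((n : ℤ) - p * (n / p : ℕ) + e) + p * (n / p : ℕ) := by ring
    rw [h3]
    exact dvd_add h1 (dvd_mul_right _ _)

lemma th_large (T : Finset ℕ) (z : ℕ) (hz : 1 ≤ z) (hT : ∀ p ∈ T, z ≤ p) :
    1 - (T.card : ℝ) / z ≤ th T := by
  have hz0 : (1 : ℝ) ≤ z := by exact_mod_cast hz
  have hz1 : (z : ℝ)⁻¹ ≤ 1 := inv_le_one_of_one_le₀ hz0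
  have h1 : (1 - (z : ℝ)⁻¹) ^ T.card ≤ th T := by
    unfold th
    rw [← prod_const]
    apply Finset.prod_le_prod
    · intro p _
      linarith
    · intro p hp
      have h2 : (z : ℝ) ≤ p := by exact_mod_cast hT p hp
      have h3 : (p : ℝ)⁻¹ ≤ (z : ℝ)⁻¹ := inv_anti₀ (by linarith) h2
      linarith
  refine le_trans ?_ h1
  have h2 := one_add_mul_le_pow (a := -(z : ℝ)⁻¹) (by linarith) T.card
  calc 1 - (T.card : ℝ) / z = 1 + (T.card : ℝ) * (-(z : ℝ)⁻¹) := by rw [div_eq_mul_inv]; ring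
    _ ≤ _ := h2
    _ = _ := by ring

/-- numerical facts -/
theorem num_F (ρ : ℝ) (hρ : 0 < ρ) : ∃ X : ℕ, 3 ≤ X ∧ ∀ x : ℕ, X ≤ x →
    ∃ z s R₂ R : ℕ, 1 ≤ Real.log x ∧ 1 ≤ s ∧ ρ / 8 * Real.log x ≤ Real.log (s : ℕ) ∧ s ^ 2 ≤ R₂ ∧
    4 ^ z * R₂ ≤ R ∧ (R : ℝ) ≤ (x : ℝ) ^ ρ ∧ ∀ d : ℕ, d ≠ 0 → d ≤ x →
      (1 : ℝ) / 2 ≤ th (d.primeFactors.filter (fun p => z < p)) := by
  have h1 : ∀ᶠ x : ℕ in atTop, 1 ≤ Real.log (x : ℝ) :=
    (Real.tendsto_log_atTop.comp tendsto_natCast_atTop_atTop).eventually_ge_atTop _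
  have h2 : ∀ᶠ x : ℕ in atTop, 8 / ρ ≤ Real.log (x : ℝ) :=
    (Real.tendsto_log_atTop.comp tendsto_natCast_atTop_atTop).eventually_ge_atTop _
  have h3 : ∀ᶠ x : ℕ in atTop, (2 : ℝ) ≤ (x : ℝ) ^ (ρ / 8) :=
    ((tendsto_rpow_atTop (by positivity : 0 < ρ / 8)).comp
      tendsto_natCast_atTop_atTop).eventually_ge_atTop _
  have h4 : ∀ᶠ x : ℕ in atTop, 16 / ρ ≤ Real.log (ρ / 8 * Real.log (x : ℝ)) := by
    have g1 : Tendsto (fun x : ℕ => Real.log (ρ / 8 * Real.log (x : ℝ))) atTop atTop := by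
      apply Real.tendsto_log_atTop.comp
      apply Tendsto.const_mul_atTop (by positivity : 0 < ρ / 8)
      exact Real.tendsto_log_atTop.comp tendsto_natCast_atTop_atTop
    exact g1.eventually_ge_atTop _
  obtain ⟨X, hX⟩ := eventually_atTop.1 (h1.and (h2.and (h3.and h4)))
  refine ⟨max X 3, le_max_right _ _, fun x hx => ?_⟩
  obtain ⟨a1, a2, a3, a4⟩ := hX x ((le_max_left _ _).trans hx)
  have hx3 : 3 ≤ x := (le_max_right _ _).trans hx
  have hx0 : (0 : ℝ) < x := by exact_mod_cast (by omega : 0 < x)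
  have hL0 : 0 < Real.log x := by linarith
  obtain ⟨z, hz⟩ : ∃ z : ℕ, z = ⌊ρ / 4 * Real.log x⌋₊ := ⟨_, rfl⟩
  obtain ⟨s, hs⟩ : ∃ s : ℕ, s = ⌊(x : ℝ) ^ (ρ / 4)⌋₊ := ⟨_, rfl⟩
  have hzl : (z : ℝ) ≤ ρ / 4 * Real.log x := by rw [hz]; exact Nat.floor_le (by positivity)
  have hzu : ρ / 8 * Real.log x ≤ z := by
    have g1 := Nat.lt_floor_add_one (ρ / 4 * Real.log x)
    rw [← hz] at g1
    have g2 : 1 ≤ ρ / 8 * Real.log x := by
      rw [div_le_iff₀ hρ] at a2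
      linarith
    linarith
  have hz1 : (1 : ℝ) ≤ z := by
    have g2 : 1 ≤ ρ / 8 * Real.log x := by
      rw [div_le_iff₀ hρ] at a2
      linarith
    linarith
  have hz1' : 1 ≤ z := by exact_mod_cast hz1
  have hsl : (x : ℝ) ^ (ρ / 8) ≤ s := by
    have h5 := Nat.lt_floor_add_one ((x : ℝ) ^ (ρ / 4))
    rw [← hs] at h5
    have h6 : (x : ℝ) ^ (ρ / 4) = (x : ℝ) ^ (ρ / 8) * (x : ℝ) ^ (ρ / 8) := by
      rw [← Real.rpow_add hx0]
      congr 1
      ring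
    nlinarith
  have hsu : (s : ℝ) ≤ (x : ℝ) ^ (ρ / 4) := by rw [hs]; exact Nat.floor_le (by positivity)
  have h4z : (4 : ℝ) ^ z ≤ (x : ℝ) ^ (ρ / 2) := by
    rw [← Real.rpow_natCast, Real.rpow_def_of_pos (by norm_num : (0 : ℝ) < 4),
      Real.rpow_def_of_pos hx0, Real.exp_le_exp]
    have g1 : Real.log 4 ≤ 2 := by
      have g2 : Real.log 4 = 2 * Real.log 2 := by
        rw [show (4 : ℝ) = 2 ^ 2 by norm_num, Real.log_pow]
        norm_num
      have g3 : Real.log 2 ≤ 1 := by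
        have := Real.log_two_lt_d9
        linarith
      linarith
    calc Real.log 4 * (z : ℝ) ≤ 2 * (ρ / 4 * Real.log x) := by
          apply mul_le_mul g1 hzl (by positivity) (by norm_num)
      _ = Real.log x * (ρ / 2) := by ring
  refine ⟨z, s, ⌊(x : ℝ) ^ (ρ / 2)⌋₊, ⌊(x : ℝ) ^ ρ⌋₊, a1, ?_, ?_, ?_, ?_,
    Nat.floor_le (by positivity), ?_⟩
  · have h5 : (1 : ℝ) ≤ s := by linarith
    exact_mod_cast h5
  · have h5 := Real.log_le_log (by positivity) hsl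
    rwa [Real.log_rpow hx0] at h5
  · apply Nat.le_floor
    push_cast
    calc (s : ℝ) ^ 2 ≤ ((x : ℝ) ^ (ρ / 4)) ^ 2 := pow_le_pow_left₀ (Nat.cast_nonneg _) hsu 2
      _ = (x : ℝ) ^ (ρ / 2) := by
          rw [← Real.rpow_natCast, ← Real.rpow_mul hx0.le]
          congr 1
          push_cast
          ring
  · apply Nat.le_floor
    push_cast
    calc (4 : ℝ) ^ z * (⌊(x : ℝ) ^ (ρ / 2)⌋₊ : ℝ) ≤ (x : ℝ) ^ (ρ / 2) * (x : ℝ) ^ (ρ / 2) :=
          mul_le_mul h4z (Nat.floor_le (by positivity)) (Nat.cast_nonneg _) (by positivity)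
      _ = (x : ℝ) ^ ρ := by
          rw [← Real.rpow_add hx0]
          congr 1
          ring
  · intro d hd hdx
    obtain ⟨T, hT⟩ : ∃ T : Finset ℕ, T = d.primeFactors.filter (fun p => z < p) := ⟨_, rfl⟩
    rw [← hT]
    have hTz : ∀ p ∈ T, z ≤ p := by
      intro p hp
      rw [hT, mem_filter] at hp
      omega
    refine le_trans ?_ (th_large T z hz1' hTz)
    have g1 : z ^ T.card ≤ d := by
      calc z ^ T.card = ∏ _p ∈ T, z := by rw [prod_const]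
        _ ≤ ∏ p ∈ T, p := prod_le_prod' (fun p hp => hTz p hp)
        _ ≤ d := by
            apply Nat.le_of_dvd (Nat.pos_of_ne_zero hd)
            refine dvd_trans (prod_dvd_prod_of_subset _ _ _ ?_) (Nat.prod_primeFactors_dvd d)
            rw [hT]
            exact filter_subset _ _
    have g2 : (T.card : ℝ) * Real.log z ≤ Real.log x := by
      rw [← Real.log_pow]
      apply Real.log_le_log (by positivity)
      exact_mod_cast g1.trans hdx
    have g3 : 16 / ρ ≤ Real.log z := by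
      refine a4.trans (Real.log_le_log ?_ hzu)
      positivity
    have g4 : (T.card : ℝ) / z ≤ 1 / 2 := by
      rw [div_le_iff₀ (by linarith)]
      have g5 : (T.card : ℝ) * (16 / ρ) ≤ Real.log x :=
        (mul_le_mul_of_nonneg_left g3 (Nat.cast_nonneg _)).trans g2
      have g6 : (T.card : ℝ) * 16 ≤ ρ * Real.log x := by
        have : (T.card : ℝ) * 16 = ρ * ((T.card : ℝ) * (16 / ρ)) := by field_simp
        rw [this]
        exact mul_le_mul_of_nonneg_left g5 hρ.le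
      linarith
    linarith

/-- the main theorem for numbers without small prime factors -/
theorem pair_free (hM : S_MONK) (hG : S_GSUK) (ε δ : ℝ) (hε : 0 < ε) (hδ : 0 < δ) : ∃ M : ℕ,
    ∀ x : ℕ, 2 ≤ x → ∀ e : ℤ, e ≠ 0 → e.natAbs ≤ x → ∀ A : Finset ℕ, A ⊆ Icc 1 x →
    (∀ n ∈ A, ∀ p : ℕ, p.Prime → (p : ℝ) ≤ (x : ℝ) ^ (1 / 2 : ℝ) → ¬ p ∣ n ∧ ¬ (p : ℤ) ∣ (n : ℤ) + e) →
    (Ea (ε * ((e.natAbs : ℝ) / Nat.totient e.natAbs * (x / (Real.log x) ^ 2))) A
      ⌊(x : ℝ) ^ (1 / 2 - δ)⌋₊).card ≤ M := by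
  classical
  obtain ⟨ρ, hρ⟩ : ∃ ρ : ℝ, ρ = min (1 / 2) δ := ⟨_, rfl⟩
  have hρ0 : 0 < ρ := by rw [hρ]; exact lt_min (by norm_num) hδ
  have hρθ : ρ ≤ 1 / 2 := by rw [hρ]; exact min_le_left _ _
  have hρδ : ρ ≤ δ := by rw [hρ]; exact min_le_right _ _
  obtain ⟨c₀, hc₀⟩ : ∃ c₀ : ℝ, c₀ = ((Nat.totient (Nat.factorial 2) : ℝ) / (Nat.factorial 2 : ℕ)) ^ 2 / 16 :=
    ⟨_, rfl⟩
  have hc₀0 : 0 < c₀ := by
    rw [hc₀]
    have h1 : (0 : ℝ) < Nat.totient (Nat.factorial 2) := by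
      exact_mod_cast Nat.totient_pos.2 (Nat.factorial_pos 2)
    have h2 : (0 : ℝ) < (Nat.factorial 2 : ℕ) := by exact_mod_cast Nat.factorial_pos 2
    positivity
  obtain ⟨a, ha⟩ : ∃ a : ℝ, a = c₀ * (ρ / 8) ^ 2 := ⟨_, rfl⟩
  have ha0 : 0 < a := by rw [ha]; positivity
  obtain ⟨M₀, hM₀⟩ : ∃ M₀ : ℕ, M₀ = ⌈144 / (a ^ 2 * ε ^ 2)⌉₊ + 1 := ⟨_, rfl⟩
  have hM₀' : 144 / (a ^ 2 * ε ^ 2) < M₀ := by
    rw [hM₀]
    push_cast
    have := Nat.le_ceil (144 / (a ^ 2 * ε ^ 2))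
    linarith
  obtain ⟨Y, hY⟩ : ∃ Y : ℕ, Y = 2 * M₀ + 2 := ⟨_, rfl⟩
  obtain ⟨X, hX3, hX⟩ := num_F ρ hρ0
  refine ⟨max X (M₀ + Y), fun x hx2 e he0 hex A hA hfree => ?_⟩
  have hx1 : (1 : ℝ) ≤ x := by exact_mod_cast (by omega : 1 ≤ x)
  have hx0 : (0 : ℝ) < x := by linarith
  obtain ⟨Q, hQ⟩ : ∃ Q : ℕ, Q = ⌊(x : ℝ) ^ (1 / 2 - δ)⌋₊ := ⟨_, rfl⟩
  rw [← hQ]
  have hQl : (Q : ℝ) ≤ (x : ℝ) ^ (1 / 2 - δ) := by rw [hQ]; exact Nat.floor_le (by positivity)
  obtain ⟨d, hd⟩ : ∃ d : ℕ, d = e.natAbs := ⟨_, rfl⟩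
  rw [← hd] at hex ⊢
  have hd0 : d ≠ 0 := by rw [hd]; exact Int.natAbs_ne_zero.2 he0
  have hd1 : (0 : ℝ) < d := by exact_mod_cast Nat.pos_of_ne_zero hd0
  have hφ1 : (0 : ℝ) < Nat.totient d := by exact_mod_cast Nat.totient_pos.2 (Nat.pos_of_ne_zero hd0)
  obtain ⟨E, hE⟩ : ∃ E : ℝ, E = ε * ((d : ℝ) / Nat.totient d * (x / (Real.log x) ^ 2)) := ⟨_, rfl⟩
  rw [← hE]
  rcases Nat.lt_or_ge x X with hxX | hxX
  · refine le_trans ?_ (le_max_left _ _)
    have h1 : (Ea E A Q).card ≤ Q := by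
      unfold Ea
      refine (card_filter_le _ _).trans ?_
      rw [Nat.card_Icc]
      omega
    have h2 : Q ≤ x := by
      have h3 : (Q : ℝ) ≤ x := hQl.trans (by
        calc (x : ℝ) ^ (1 / 2 - δ) ≤ (x : ℝ) ^ (1 : ℝ) :=
              Real.rpow_le_rpow_of_exponent_le hx1 (by linarith)
          _ = x := Real.rpow_one _)
      exact_mod_cast h3
    omega
  refine le_trans ?_ (le_max_right _ _)
  obtain ⟨z, s, R₂, R, d1, d2, d3, d4, d5, hRl, d6⟩ := hX x hxX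
  have hL0 : 0 < Real.log x := by linarith
  have hE0 : 0 < E := by rw [hE]; positivity
  -- sifting
  have hΩ : ∀ p : ℕ, p.Prime → 2 < p → p ≤ R → cl e p ⊆ range p ∧ (cl e p).card = kap d p ∧
      ∀ n ∈ A, n % p ∉ cl e p := by
    intro p hp _ hpR
    refine ⟨filter_subset _ _, by rw [cl_card e p hp, hd], fun n hn hn' => ?_⟩
    have h1 : (p : ℝ) ≤ (x : ℝ) ^ (1 / 2 : ℝ) := by
      have h2 : (p : ℝ) ≤ R := by exact_mod_cast hpR
      exact h2.trans (hRl.trans (Real.rpow_le_rpow_of_exponent_le hx1 hρθ))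
    obtain ⟨g1, g2⟩ := hfree n hn p hp h1
    rcases cl_mem e p n hn' with h | h
    · exact g1 h
    · exact g2 h
  have hkap : ∀ p, kap d p ≤ 2 := by
    intro p
    unfold kap
    split_ifs <;> norm_num
  have hb := d6 d hd0 hex
  -- the weight
  obtain ⟨Λ, hΛ⟩ : ∃ Λ : ℝ, Λ = a * ((Nat.totient d : ℝ) / d) * (Real.log x) ^ 2 := ⟨_, rfl⟩
  have hΛ0 : 0 < Λ := by rw [hΛ]; positivity
  have hlogs : (ρ / 8 * Real.log x) ^ 2 ≤ (Real.log s) ^ 2 := pow_le_pow_left₀ (by positivity) d3 2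
  have hΛle : ∀ W : ℕ, W ≠ 0 → (1 : ℝ) / 2 ≤ (Nat.totient W : ℝ) / W →
      Λ ≤ ∑ m ∈ (Icc 1 R).filter (fun m => Squarefree m ∧ Nat.Coprime (Nat.factorial 2 * W) m),
        gf (kap d) m := by
    intro W hW0 hW
    refine le_trans ?_ (low hG 2 W d z R R₂ s le_rfl hW0 hd0 hW hb d2 d4 d5)
    rw [← hc₀, hΛ, ha]
    calc c₀ * (ρ / 8) ^ 2 * ((Nat.totient d : ℝ) / d) * (Real.log x) ^ 2
        = c₀ * ((Nat.totient d : ℝ) / d) * (ρ / 8 * Real.log x) ^ 2 := by ring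
      _ ≤ _ := mul_le_mul_of_nonneg_left hlogs (by positivity)
  have hR2 : (R : ℝ) ^ 2 ≤ x := by
    calc (R : ℝ) ^ 2 ≤ ((x : ℝ) ^ (1 / 2 : ℝ)) ^ 2 := by
          apply pow_le_pow_left₀ (Nat.cast_nonneg _)
          exact hRl.trans (Real.rpow_le_rpow_of_exponent_le hx1 hρθ)
      _ = (x : ℝ) := by rw [← Real.rpow_natCast, ← Real.rpow_mul hx0.le]; norm_num
  -- the upper bound
  have hup : Λ * (A.card : ℝ) ≤ 12 * x := by
    rcases Nat.eq_zero_or_pos A.card with h0 | h0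
    · rw [h0]
      push_cast
      linarith
    have ht0 : (0 : ℝ) < A.card := by exact_mod_cast h0
    have hmain := upf hM (kap d) 2 x R hkap (ind1 A) (cl e) (by
      intro p hp hpP hpR
      obtain ⟨g1, g2, g3⟩ := hΩ p hp hpP hpR
      refine ⟨g1, g2, fun n _ hn => ?_⟩
      unfold ind1
      rw [if_neg]
      intro hn'
      exact g3 n hn' hn)
    rw [ind_sq x A hA, ind_sum x A hA, Complex.norm_natCast] at hmain
    have h7 := hΛle 1 one_ne_zero (by norm_num)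
    rw [mul_one] at h7
    have h8 : (Λ * (A.card : ℝ)) * A.card ≤ (12 * x) * A.card := by
      calc (Λ * (A.card : ℝ)) * A.card = Λ * (A.card : ℝ) ^ 2 := by ring
        _ ≤ _ := mul_le_mul_of_nonneg_right h7 (by positivity)
        _ ≤ _ := hmain
        _ ≤ (12 * x) * A.card := by
            apply mul_le_mul_of_nonneg_right _ ht0.le
            linarith
    exact le_of_mul_le_mul_right h8 ht0
  by_contra hcon
  push Not at hcon
  obtain ⟨B, hB⟩ : ∃ B : Finset ℕ, B = (Ea E A Q).filter (fun q => Y < q) := ⟨_, rfl⟩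
  have hBc : M₀ ≤ B.card := by
    have h1 : (Ea E A Q).card = B.card + ((Ea E A Q).filter (fun q => ¬ Y < q)).card := by
      rw [hB, card_filter_add_card_filter_not]
    have h2 : ((Ea E A Q).filter (fun q => ¬ Y < q)).card ≤ Y := by
      have h3 : (Ea E A Q).filter (fun q => ¬ Y < q) ⊆ Icc 1 Y := by
        intro q hq
        rw [mem_filter] at hq
        have h4 := hq.1
        unfold Ea at h4
        rw [mem_filter, mem_Icc] at h4
        exact mem_Icc.2 ⟨h4.1.1, by omega⟩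
      have h4 := card_le_card h3
      rwa [Nat.card_Icc, Nat.add_sub_cancel] at h4
    omega
  obtain ⟨S, hS, hSc⟩ := exists_subset_card_eq hBc
  have hSp : ∀ q ∈ S, q.Prime ∧ q ≤ Q ∧ Y < q ∧ E ^ 2 ≤ AS x (ind1 A) q := by
    intro q hq
    have h1 := hS hq
    rw [hB, mem_filter] at h1
    have h2 := h1.1
    unfold Ea at h2
    rw [mem_filter, mem_Icc] at h2
    obtain ⟨⟨h3, h4⟩, hqp, C, hC, hCb⟩ := h2
    refine ⟨hqp, h4, h1.2, ?_⟩
    refine le_trans ?_ (class_count q x hqp A hA C hC)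
    rw [← sq_abs (((A.filter (fun n => n % q ∈ C)).card : ℝ) - (C.card : ℝ) / q * (A.card : ℝ))]
    exact pow_le_pow_left₀ hE0.le hCb.le 2
  have hW0 : (∏ D ∈ S, D) ≠ 0 := prod_ne_zero_iff.2 (fun q hq => (hSp q hq).1.ne_zero)
  have hWθ : (1 : ℝ) / 2 ≤ (Nat.totient (∏ D ∈ S, D) : ℝ) / (∏ D ∈ S, D : ℕ) := by
    rw [tot_th _ hW0, Nat.primeFactors_prod (fun q hq => (hSp q hq).1)]
    refine le_trans ?_ (th_large S Y (by omega) (fun q hq => (hSp q hq).2.2.1.le))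
    have hY0 : (0 : ℝ) < Y := by exact_mod_cast (by omega : 0 < Y)
    have h1 : (S.card : ℝ) / Y ≤ 1 / 2 := by
      rw [div_le_iff₀ hY0, hSc, hY]
      push_cast
      linarith
    linarith
  have hQR : (Q * R) ^ 2 ≤ x := by
    have h1 : (((Q * R) ^ 2 : ℕ) : ℝ) ≤ x := by
      push_cast
      have h2 : (Q : ℝ) * R ≤ (x : ℝ) ^ (1 / 2 : ℝ) := by
        calc (Q : ℝ) * R ≤ (x : ℝ) ^ (1 / 2 - δ) * (x : ℝ) ^ ρ :=
              mul_le_mul hQl hRl (Nat.cast_nonneg _) (by positivity)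
          _ = (x : ℝ) ^ (1 / 2 - δ + ρ) := (Real.rpow_add hx0 _ _).symm
          _ ≤ _ := Real.rpow_le_rpow_of_exponent_le hx1 (by linarith)
      calc ((Q : ℝ) * R) ^ 2 ≤ ((x : ℝ) ^ (1 / 2 : ℝ)) ^ 2 := pow_le_pow_left₀ (by positivity) h2 2
        _ = (x : ℝ) := by rw [← Real.rpow_natCast, ← Real.rpow_mul hx0.le]; norm_num
    exact_mod_cast h1
  have hfew := few_f hM (kap d) 2 x Q R hkap A E Λ (cl e) hA hΩ hQR S
    (fun q hq => ⟨(hSp q hq).1, (hSp q hq).2.1⟩) (fun q hq => (hSp q hq).2.2.2)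
    (hΛle _ hW0 hWθ) hΛ0.le
  rw [hSc] at hfew
  -- the comparison
  have h9 : Λ ^ 2 * (M₀ * E ^ 2) ≤ 144 * (x : ℝ) ^ 2 := by
    calc Λ ^ 2 * (M₀ * E ^ 2) = Λ * (Λ * (M₀ * E ^ 2)) := by ring
      _ ≤ Λ * (12 * x * A.card) := mul_le_mul_of_nonneg_left hfew hΛ0.le
      _ = 12 * x * (Λ * A.card) := by ring
      _ ≤ 12 * x * (12 * x) := mul_le_mul_of_nonneg_left hup (by positivity)
      _ = _ := by ring
  have h10 : Λ * E = a * ε * x := by
    rw [hΛ, hE]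
    field_simp
  have h11 : Λ ^ 2 * (M₀ * E ^ 2) = M₀ * (a * ε * x) ^ 2 := by
    rw [← h10]
    ring
  rw [h11] at h9
  have h12 : (M₀ : ℝ) * (a ^ 2 * ε ^ 2) * x ^ 2 ≤ 144 * (x : ℝ) ^ 2 := by
    calc (M₀ : ℝ) * (a ^ 2 * ε ^ 2) * x ^ 2 = M₀ * (a * ε * x) ^ 2 := by ring
      _ ≤ _ := h9
  have h13 := le_of_mul_le_mul_right h12 (by positivity)
  rw [div_lt_iff₀ (by positivity)] at hM₀'
  linarith

/-- prime pairs -/
theorem pair_prime (hM : S_MONK) (hG : S_GSUK) (ε δ : ℝ) (hε : 0 < ε) (hδ : 0 < δ) : ∃ M : ℕ,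
    ∀ x : ℕ, 2 ≤ x → ∀ e : ℤ, e ≠ 0 → e.natAbs ≤ x → ∀ A : Finset ℕ, A ⊆ Icc 1 x →
    (∀ n ∈ A, n.Prime ∧ ((n : ℤ) + e).natAbs.Prime) →
    (Ea (ε * ((e.natAbs : ℝ) / Nat.totient e.natAbs * (x / (Real.log x) ^ 2))) A
      ⌊(x : ℝ) ^ (1 / 2 - δ)⌋₊).card ≤ M := by
  classical
  obtain ⟨M, hMM⟩ := pair_free hM hG (ε / 2) δ (by positivity) hδ
  obtain ⟨X, hX3, hX⟩ := num_E 2 (1 / 2) (ε / 8) (by norm_num) (by positivity)
  refine ⟨max M X, fun x hx2 e he0 hex A hA h => ?_⟩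
  have hx1 : (1 : ℝ) ≤ x := by exact_mod_cast (by omega : 1 ≤ x)
  have hx0 : (0 : ℝ) < x := by linarith
  have hL0 : 0 < Real.log x := Real.log_pos (by exact_mod_cast (by omega : 1 < x))
  obtain ⟨d, hd⟩ : ∃ d : ℕ, d = e.natAbs := ⟨_, rfl⟩
  rcases Nat.lt_or_ge x X with hxX | hxX
  · refine le_trans ?_ (le_max_right _ _)
    have h2 : ⌊(x : ℝ) ^ (1 / 2 - δ)⌋₊ ≤ x := by
      apply Nat.floor_le_of_le
      calc (x : ℝ) ^ (1 / 2 - δ) ≤ (x : ℝ) ^ (1 : ℝ) :=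
            Real.rpow_le_rpow_of_exponent_le hx1 (by linarith)
        _ = x := Real.rpow_one _
    have h1 : (Ea (ε * ((e.natAbs : ℝ) / Nat.totient e.natAbs * (x / (Real.log x) ^ 2))) A
        ⌊(x : ℝ) ^ (1 / 2 - δ)⌋₊).card ≤ ⌊(x : ℝ) ^ (1 / 2 - δ)⌋₊ := by
      unfold Ea
      refine (card_filter_le _ _).trans ?_
      rw [Nat.card_Icc]
      omega
    omega
  refine le_trans ?_ (le_max_left _ _)
  have hsm := hX x hxX
  obtain ⟨y, hy⟩ : ∃ y : ℝ, y = (x : ℝ) ^ (1 / 2 : ℝ) := ⟨_, rfl⟩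
  rw [← hy] at hsm
  have hy1 : 1 ≤ y := by rw [hy]; exact Real.one_le_rpow hx1 (by norm_num)
  obtain ⟨A', hA'⟩ : ∃ A' : Finset ℕ, A' = A.filter (fun n : ℕ => y < (n : ℝ) ∧
    y < ((((n : ℤ) + e).natAbs : ℕ) : ℝ)) := ⟨_, rfl⟩
  have hA'A : A' ⊆ A := by rw [hA']; exact filter_subset _ _
  have hc := hMM x hx2 e he0 hex A' (hA'A.trans hA) (by
    intro n hn p hp hpx
    rw [hA', mem_filter] at hn
    rw [← hy] at hpx
    obtain ⟨hnA, hn1, hn2⟩ := hn
    obtain ⟨g1, g2⟩ := h n hnA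
    constructor
    · intro hdvd
      have h1 := (Nat.prime_dvd_prime_iff_eq hp g1).1 hdvd
      rw [h1] at hpx
      linarith
    · intro hdvd
      have h0 : p ∣ ((n : ℤ) + e).natAbs := Int.natCast_dvd.1 hdvd
      have h1 := (Nat.prime_dvd_prime_iff_eq hp g2).1 h0
      rw [h1] at hpx
      linarith)
  refine le_trans (card_le_card ?_) hc
  have hF1 : (1 : ℝ) ≤ (e.natAbs : ℝ) / Nat.totient e.natAbs := by
    have hd1 : 0 < e.natAbs := Nat.pos_of_ne_zero (Int.natAbs_ne_zero.2 he0)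
    have hφ1 : (0 : ℝ) < Nat.totient e.natAbs := by exact_mod_cast Nat.totient_pos.2 hd1
    rw [le_div_iff₀ hφ1, one_mul]
    exact_mod_cast Nat.totient_le _
  -- the small elements
  have hB : ((A \ A').card : ℝ) ≤ 4 * y := by
    have h4 : A \ A' ⊆ Icc 1 ⌊y⌋₊ ∪
        (Icc 1 x).filter (fun n : ℕ => ((((n : ℤ) + e).natAbs : ℕ) : ℝ) ≤ y) := by
      intro n hn
      rw [Finset.mem_sdiff, hA', mem_filter] at hn
      rw [mem_union, mem_Icc, mem_filter]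
      by_cases hny : y < (n : ℝ)
      · right
        refine ⟨hA hn.1, ?_⟩
        by_contra hcon
        push Not at hcon
        exact hn.2 ⟨hn.1, hny, hcon⟩
      · left
        push Not at hny
        exact ⟨(mem_Icc.1 (hA hn.1)).1, Nat.le_floor hny⟩
    have h5 := (card_le_card h4).trans (card_union_le _ _)
    rw [Nat.card_Icc, Nat.add_sub_cancel] at h5
    have h6 : ((Icc 1 x).filter (fun n : ℕ => ((((n : ℤ) + e).natAbs : ℕ) : ℝ) ≤ y)).card ≤
        2 * ⌊y⌋₊ + 1 := by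
      calc ((Icc 1 x).filter (fun n : ℕ => ((((n : ℤ) + e).natAbs : ℕ) : ℝ) ≤ y)).card
          ≤ (Icc (-(⌊y⌋₊ : ℤ) - e) ((⌊y⌋₊ : ℤ) - e)).card := by
            apply card_le_card_of_injOn (fun n : ℕ => (n : ℤ))
            · intro n hn
              have hn' := (mem_filter.1 (mem_coe.1 hn)).2
              have h7 : ((n : ℤ) + e).natAbs ≤ ⌊y⌋₊ := Nat.le_floor hn'
              have h8 : ((n : ℤ) + e).natAbs = |(n : ℤ) + e| := Int.natCast_natAbs _
              have h9 : |(n : ℤ) + e| ≤ (⌊y⌋₊ : ℤ) := by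
                rw [← h8]
                exact_mod_cast h7
              rw [abs_le] at h9
              rw [mem_coe, mem_Icc]
              constructor <;> linarith [h9.1, h9.2]
            · intro n _ m _ hnm
              exact Nat.cast_injective hnm
        _ = 2 * ⌊y⌋₊ + 1 := by
            rw [Int.card_Icc]
            omega
    have h7 : ((A \ A').card : ℝ) ≤ ((⌊y⌋₊ + (2 * ⌊y⌋₊ + 1) : ℕ) : ℝ) := by
      exact_mod_cast h5.trans (Nat.add_le_add_left h6 _)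
    have h8 : (⌊y⌋₊ : ℝ) ≤ y := Nat.floor_le (by linarith)
    push_cast at h7
    linarith
  intro q hq
  unfold Ea at hq ⊢
  rw [mem_filter, mem_Icc] at hq ⊢
  refine ⟨hq.1, hq.2.1, ?_⟩
  obtain ⟨C, hC, h3⟩ := hq.2.2
  refine ⟨C, hC, ?_⟩
  have hsplit : A = A' ∪ (A \ A') := (union_sdiff_of_subset hA'A).symm
  have hdis : Disjoint A' (A \ A') := disjoint_sdiff
  have e1 : (A.card : ℝ) = A'.card + (A \ A').card := by
    have := card_union_of_disjoint hdis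
    rw [← hsplit] at this
    exact_mod_cast this
  have e2 : ((A.filter (fun n => n % q ∈ C)).card : ℝ) =
      (A'.filter (fun n => n % q ∈ C)).card + ((A \ A').filter (fun n => n % q ∈ C)).card := by
    have g1 : A.filter (fun n => n % q ∈ C) =
        A'.filter (fun n => n % q ∈ C) ∪ (A \ A').filter (fun n => n % q ∈ C) := by
      rw [← filter_union, ← hsplit]
    have g2 : Disjoint (A'.filter (fun n => n % q ∈ C)) ((A \ A').filter (fun n => n % q ∈ C)) :=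
      disjoint_filter_filter hdis
    have := card_union_of_disjoint g2
    rw [← g1] at this
    exact_mod_cast this
  have e3 := triv (A \ A') C q hq.1.1 hC
  rw [e1, e2] at h3
  have e4 : (((A'.filter (fun n => n % q ∈ C)).card : ℝ) +
      ((A \ A').filter (fun n => n % q ∈ C)).card) - (C.card : ℝ) / q * ((A'.card : ℝ) + (A \ A').card)
      = (((A'.filter (fun n => n % q ∈ C)).card : ℝ) - (C.card : ℝ) / q * (A'.card : ℝ)) +
        ((((A \ A').filter (fun n => n % q ∈ C)).card : ℝ) - (C.card : ℝ) / q * ((A \ A').card : ℝ)) := by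
    ring
  rw [e4] at h3
  have e5 := abs_add_le (((A'.filter (fun n => n % q ∈ C)).card : ℝ) - (C.card : ℝ) / q * (A'.card : ℝ))
    ((((A \ A').filter (fun n => n % q ∈ C)).card : ℝ) - (C.card : ℝ) / q * ((A \ A').card : ℝ))
  have e6 : (x : ℝ) / (Real.log x) ^ 2 ≤
      (e.natAbs : ℝ) / Nat.totient e.natAbs * (x / (Real.log x) ^ 2) := by
    have : 0 ≤ (x : ℝ) / (Real.log x) ^ 2 := by positivity
    nlinarith
  have e7 : 4 * y ≤ ε / 2 * ((e.natAbs : ℝ) / Nat.totient e.natAbs * (x / (Real.log x) ^ 2)) := by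
    calc 4 * y ≤ 4 * (ε / 8 * (x / (Real.log x) ^ 2)) := by linarith
      _ = ε / 2 * (x / (Real.log x) ^ 2) := by ring
      _ ≤ _ := mul_le_mul_of_nonneg_left e6 (by positivity)
  linarith

end Pool.Agent.H482.DU
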